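import Mathlib

namespace Pool.Agent.Helper465Nine28

open Finset

/-- Counting transversals: sets `T ⊆ S` of size `#h` that `π` maps onto `h`. -/
theorem card_transversal {V ι : Type*} [DecidableEq V] [DecidableEq ι] (π : V → ι)
    (S : Finset V) (h : Finset ι) :
    ((S.powersetCard h.card).filter (fun T => T.image π = h)).card
      = ∏ i ∈ h, (S.filter (fun v => π v = i)).card := by
  rw [← Finset.card_pi]
  symm
  refine Finset.card_bij (fun f _ => h.attach.image (fun i => f i.1 i.2)) ?_ ?_ ?_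
  · intro f hf
    rw [Finset.mem_pi] at hf
    have h1 : ∀ i : {x // x ∈ h}, π (f i.1 i.2) = i.1 :=
      fun i => (Finset.mem_filter.mp (hf i.1 i.2)).2
    have inj : Function.Injective (fun i : {x // x ∈ h} => f i.1 i.2) := by
      intro a b hab
      apply Subtype.ext
      rw [← h1 a, ← h1 b]
      exact congrArg π hab
    rw [Finset.mem_filter, Finset.mem_powersetCard]
    refine ⟨⟨?_, ?_⟩, ?_⟩
    · intro v hv
      obtain ⟨i, _, rfl⟩ := Finset.mem_image.mp hv
      exact (Finset.mem_filter.mp (hf i.1 i.2)).1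
    · rw [Finset.card_image_of_injective _ inj, Finset.card_attach]
    · ext i
      constructor
      · intro hi
        rw [Finset.image_image] at hi
        obtain ⟨j, _, rfl⟩ := Finset.mem_image.mp hi
        have : π (f j.1 j.2) = j.1 := h1 j
        show π (f j.1 j.2) ∈ h
        rw [this]
        exact j.2
      · intro hi
        rw [Finset.image_image]
        exact Finset.mem_image.mpr ⟨⟨i, hi⟩, Finset.mem_attach _ _, h1 ⟨i, hi⟩⟩
  · intro f hf g hg hfg
    rw [Finset.mem_pi] at hf hg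
    funext i hi
    have hmem : f i hi ∈ h.attach.image (fun i => g i.1 i.2) := by
      rw [← hfg]
      exact Finset.mem_image.mpr ⟨⟨i, hi⟩, Finset.mem_attach _ _, rfl⟩
    obtain ⟨j, _, hj⟩ := Finset.mem_image.mp hmem
    have e1 : π (f i hi) = i := (Finset.mem_filter.mp (hf i hi)).2
    have e2 : π (g j.1 j.2) = j.1 := (Finset.mem_filter.mp (hg j.1 j.2)).2
    have hji : j = ⟨i, hi⟩ := by
      apply Subtype.ext
      rw [← e2, hj, e1]
    subst hji
    exact hj.symm
  · intro T hT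
    rw [Finset.mem_filter, Finset.mem_powersetCard] at hT
    obtain ⟨⟨hTS, hTc⟩, hTi⟩ := hT
    have injT : Set.InjOn π T := by
      rw [← Finset.card_image_iff, hTi, hTc]
    have ex : ∀ i ∈ h, ∃ v ∈ T, π v = i := by
      intro i hi
      rw [← hTi] at hi
      exact Finset.mem_image.mp hi
    choose f hf1 hf2 using ex
    refine ⟨f, ?_, ?_⟩
    · rw [Finset.mem_pi]
      intro i hi
      exact Finset.mem_filter.mpr ⟨hTS (hf1 i hi), hf2 i hi⟩
    · ext v
      constructor
      · intro hv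
        obtain ⟨i, _, rfl⟩ := Finset.mem_image.mp hv
        exact hf1 i.1 i.2
      · intro hv
        have hπ : π v ∈ h := by
          rw [← hTi]
          exact Finset.mem_image_of_mem _ hv
        refine Finset.mem_image.mpr ⟨⟨π v, hπ⟩, Finset.mem_attach _ _, ?_⟩
        exact injT (hf1 _ _) hv (hf2 _ _)

/-- The 13 triples of the pattern on 7 points: the 14 triples `t + {0,1,3}`, `t + {0,2,3}`
(mod 7) without `{0,1,3}`. -/
def pat : Finset (Finset (Fin 7)) :=
  {{0, 1, 5}, {0, 2, 3}, {0, 2, 6}, {0, 4, 5}, {0, 4, 6}, {1, 2, 4}, {1, 2, 6}, {1, 3, 4},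
    {1, 5, 6}, {2, 3, 5}, {2, 4, 5}, {3, 4, 6}, {3, 5, 6}}

theorem pat_card_three : ∀ h ∈ pat, h.card = 3 := by decide +kernel

/-- The edge polynomial of the pattern. -/
def poly (a0 a1 a2 a3 a4 a5 a6 : ℕ) : ℕ :=
  a0 * a1 * a5 + a0 * a2 * a3 + a0 * a2 * a6 + a0 * a4 * a5 + a0 * a4 * a6 + a1 * a2 * a4
    + a1 * a2 * a6 + a1 * a3 * a4 + a1 * a5 * a6 + a2 * a3 * a5 + a2 * a4 * a5 + a3 * a4 * a6
    + a3 * a5 * a6

theorem sum_pat (a : Fin 7 → ℕ) :
    ∑ h ∈ pat, ∏ i ∈ h, a i = poly (a 0) (a 1) (a 2) (a 3) (a 4) (a 5) (a 6) := by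
  unfold pat
  rw [Finset.sum_insert (by decide), Finset.sum_insert (by decide),
    Finset.sum_insert (by decide), Finset.sum_insert (by decide),
    Finset.sum_insert (by decide), Finset.sum_insert (by decide),
    Finset.sum_insert (by decide), Finset.sum_insert (by decide),
    Finset.sum_insert (by decide), Finset.sum_insert (by decide),
    Finset.sum_insert (by decide), Finset.sum_insert (by decide),
    Finset.sum_singleton]
  have key : ∀ i j k : Fin 7, i ≠ j → i ≠ k → j ≠ k →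
      ∏ x ∈ ({i, j, k} : Finset (Fin 7)), a x = a i * a j * a k := by
    intro i j k hij hik hjk
    rw [Finset.prod_insert (by simp [hij, hik]), Finset.prod_insert (by simp [hjk]),
      Finset.prod_singleton, mul_assoc]
  rw [key 0 1 5 (by decide) (by decide) (by decide), key 0 2 3 (by decide) (by decide) (by decide),
    key 0 2 6 (by decide) (by decide) (by decide), key 0 4 5 (by decide) (by decide) (by decide),
    key 0 4 6 (by decide) (by decide) (by decide), key 1 2 4 (by decide) (by decide) (by decide),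
    key 1 2 6 (by decide) (by decide) (by decide), key 1 3 4 (by decide) (by decide) (by decide),
    key 1 5 6 (by decide) (by decide) (by decide), key 2 3 5 (by decide) (by decide) (by decide),
    key 2 4 5 (by decide) (by decide) (by decide), key 3 4 6 (by decide) (by decide) (by decide),
    key 3 5 6 (by decide) (by decide) (by decide)]
  unfold poly
  ring

/-- The finite check over all 5005 weight vectors of total 9. -/
def chk : Bool :=
  (List.range 10).all fun a0 => (List.range (10 - a0)).all fun a1 =>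
    (List.range (10 - a0 - a1)).all fun a2 => (List.range (10 - a0 - a1 - a2)).all fun a3 =>
      (List.range (10 - a0 - a1 - a2 - a3)).all fun a4 =>
        (List.range (10 - a0 - a1 - a2 - a3 - a4)).all fun a5 =>
          Nat.ble (poly a0 a1 a2 a3 a4 a5 (9 - a0 - a1 - a2 - a3 - a4 - a5)) 27

theorem chk_true : chk = true := by decide +kernel

theorem bound_aux : ∀ a0 < 10, ∀ a1 < 10 - a0, ∀ a2 < 10 - a0 - a1,
    ∀ a3 < 10 - a0 - a1 - a2, ∀ a4 < 10 - a0 - a1 - a2 - a3,
    ∀ a5 < 10 - a0 - a1 - a2 - a3 - a4,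
    poly a0 a1 a2 a3 a4 a5 (9 - a0 - a1 - a2 - a3 - a4 - a5) ≤ 27 := by
  intro a0 h0 a1 h1 a2 h2 a3 h3 a4 h4 a5 h5
  have h := chk_true
  unfold chk at h
  have k0 := List.all_eq_true.mp h a0 (List.mem_range.mpr h0)
  have k1 := List.all_eq_true.mp k0 a1 (List.mem_range.mpr h1)
  have k2 := List.all_eq_true.mp k1 a2 (List.mem_range.mpr h2)
  have k3 := List.all_eq_true.mp k2 a3 (List.mem_range.mpr h3)
  have k4 := List.all_eq_true.mp k3 a4 (List.mem_range.mpr h4)
  have k5 := List.all_eq_true.mp k4 a5 (List.mem_range.mpr h5)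
  exact Nat.le_of_ble_eq_true k5

theorem poly_le (a0 a1 a2 a3 a4 a5 a6 : ℕ) (h : a0 + a1 + a2 + a3 + a4 + a5 + a6 = 9) :
    poly a0 a1 a2 a3 a4 a5 a6 ≤ 27 := by
  have h6 : a6 = 9 - a0 - a1 - a2 - a3 - a4 - a5 := by omega
  rw [h6]
  exact bound_aux a0 (by omega) a1 (by omega) a2 (by omega) a3 (by omega) a4 (by omega) a5
    (by omega)

/-- The blow-up of the pattern along `π`. -/
def blow {m : ℕ} (π : Fin m → Fin 7) : Finset (Finset (Fin m)) :=
  ((Finset.univ : Finset (Fin m)).powersetCard 3).filter (fun T => T.image π ∈ pat)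

theorem blow_card_three {m : ℕ} (π : Fin m → Fin 7) : ∀ e ∈ blow π, e.card = 3 := by
  intro e he
  exact (Finset.mem_powersetCard.mp (Finset.mem_filter.mp he).1).2

theorem blow_count {m : ℕ} (π : Fin m → Fin 7) (S : Finset (Fin m)) :
    ((blow π).filter (fun e => e ⊆ S)).card
      = ∑ h ∈ pat, ∏ i ∈ h, (S.filter (fun v => π v = i)).card := by
  rw [Finset.card_eq_sum_card_fiberwise (f := fun T => T.image π) (t := pat)]
  · apply Finset.sum_congr rfl
    intro h hh
    rw [← card_transversal π S h, pat_card_three h hh]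
    congr 1
    ext T
    simp only [blow, Finset.mem_filter, Finset.mem_powersetCard, Finset.subset_univ, true_and]
    constructor
    · rintro ⟨⟨⟨hc, _⟩, hS⟩, hT⟩
      exact ⟨⟨hS, hc⟩, hT⟩
    · rintro ⟨⟨hS, hc⟩, hT⟩
      exact ⟨⟨⟨hc, hT ▸ hh⟩, hS⟩, hT⟩
  · intro T hT
    have hT' := (Finset.mem_filter.mp (Finset.mem_coe.mp hT)).1
    exact Finset.mem_coe.mpr (Finset.mem_filter.mp hT').2

theorem sum_fiber {m : ℕ} (π : Fin m → Fin 7) (S : Finset (Fin m)) :
    ∑ i : Fin 7, (S.filter (fun v => π v = i)).card = S.card := by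
  rw [Finset.card_eq_sum_card_fiberwise (f := π) (t := Finset.univ)]
  intro x _
  simp

theorem blow_le {m : ℕ} (π : Fin m → Fin 7) (S : Finset (Fin m)) (hS : S.card = 9) :
    ((blow π).filter (fun e => e ⊆ S)).card ≤ 27 := by
  rw [blow_count, sum_pat]
  apply poly_le
  have h := sum_fiber π S
  rw [Fin.sum_univ_seven, hS] at h
  exact h

theorem exists_part {m : ℕ} (s : Fin 7 → ℕ) (hs : ∑ i, s i = m) :
    ∃ π : Fin m → Fin 7, ∀ i, ((Finset.univ : Finset (Fin m)).filter (fun v => π v = i)).card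
      = s i := by
  have hc : Fintype.card (Fin m) = Fintype.card (Σ i : Fin 7, Fin (s i)) := by
    rw [Fintype.card_sigma, Fintype.card_fin]
    simp [hs]
  let e : Fin m ≃ (Σ i : Fin 7, Fin (s i)) := Fintype.equivOfCardEq hc
  refine ⟨fun v => (e v).1, fun i => ?_⟩
  have h1 : ((Finset.univ : Finset (Fin m)).filter (fun v => (e v).1 = i)).card
      = (Finset.univ : Finset (Fin (s i))).card := by
    symm
    refine Finset.card_bij (fun j _ => e.symm ⟨i, j⟩) ?_ ?_ ?_
    · intro j _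
      simp
    · intro j _ k _ hjk
      have := e.symm.injective hjk
      simpa using this
    · intro v hv
      have hv' : (e v).1 = i := (Finset.mem_filter.mp hv).2
      subst hv'
      exact ⟨(e v).2, Finset.mem_univ _, by simp⟩
  rw [h1, Finset.card_univ, Fintype.card_fin]

theorem blow_card_of_sizes {m : ℕ} (π : Fin m → Fin 7) (s : Fin 7 → ℕ)
    (h : ∀ i, ((Finset.univ : Finset (Fin m)).filter (fun v => π v = i)).card = s i) :
    (blow π).card = poly (s 0) (s 1) (s 2) (s 3) (s 4) (s 5) (s 6) := by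
  have h1 := blow_count π Finset.univ
  rw [Finset.filter_true_of_mem (fun e _ => Finset.subset_univ e)] at h1
  rw [h1, sum_pat, h, h, h, h, h, h, h]

theorem sizes (n : ℕ) (hn : 4 ≤ n) : ∃ s : Fin 7 → ℕ, ∑ i, s i = 3 * n ∧
    n ^ 3 + 1 ≤ poly (s 0) (s 1) (s 2) (s 3) (s 4) (s 5) (s 6) := by
  obtain ⟨q, r, hr, rfl⟩ : ∃ q r, r < 7 ∧ n = 7 * q + r :=
    ⟨n / 7, n % 7, Nat.mod_lt _ (by norm_num), by omega⟩
  interval_cases r
  · refine ⟨![3 * q, 3 * q, 3 * q, 3 * q, 3 * q, 3 * q, 3 * q], ?_, ?_⟩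
    · simp [Fin.sum_univ_seven]; ring
    · obtain ⟨p, rfl⟩ : ∃ p, q = p + 1 := ⟨q - 1, by omega⟩
      simp [poly]
      nlinarith [sq_nonneg (p : ℤ), Nat.zero_le p, Nat.zero_le (p ^ 2), Nat.zero_le (p ^ 3)]
  · refine ⟨![3 * q, 3 * q, 3 * q + 1, 3 * q, 3 * q + 1, 3 * q + 1, 3 * q], ?_, ?_⟩
    · simp [Fin.sum_univ_seven]; ring
    · obtain ⟨p, rfl⟩ : ∃ p, q = p + 1 := ⟨q - 1, by omega⟩
      simp [poly]
      nlinarith [Nat.zero_le p, Nat.zero_le (p ^ 2), Nat.zero_le (p ^ 3)]
  · refine ⟨![3 * q, 3 * q + 1, 3 * q + 1, 3 * q + 1, 3 * q + 1, 3 * q + 1, 3 * q + 1], ?_, ?_⟩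
    · simp [Fin.sum_univ_seven]; ring
    · obtain ⟨p, rfl⟩ : ∃ p, q = p + 1 := ⟨q - 1, by omega⟩
      simp [poly]
      nlinarith [Nat.zero_le p, Nat.zero_le (p ^ 2), Nat.zero_le (p ^ 3)]
  · refine ⟨![3 * q + 1, 3 * q + 1, 3 * q + 1, 3 * q + 1, 3 * q + 1, 3 * q + 2, 3 * q + 2], ?_, ?_⟩
    · simp [Fin.sum_univ_seven]; ring
    · obtain ⟨p, rfl⟩ : ∃ p, q = p + 1 := ⟨q - 1, by omega⟩
      simp [poly]
      nlinarith [Nat.zero_le p, Nat.zero_le (p ^ 2), Nat.zero_le (p ^ 3)]
  · refine ⟨![3 * q + 1, 3 * q + 1, 3 * q + 2, 3 * q + 2, 3 * q + 2, 3 * q + 2, 3 * q + 2], ?_, ?_⟩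
    · simp [Fin.sum_univ_seven]; ring
    · simp [poly]
      nlinarith [Nat.zero_le q, Nat.zero_le (q ^ 2), Nat.zero_le (q ^ 3)]
  · refine ⟨![3 * q + 1, 3 * q + 2, 3 * q + 2, 3 * q + 2, 3 * q + 2, 3 * q + 3, 3 * q + 3], ?_, ?_⟩
    · simp [Fin.sum_univ_seven]; ring
    · simp [poly]
      nlinarith [Nat.zero_le q, Nat.zero_le (q ^ 2), Nat.zero_le (q ^ 3)]
  · refine ⟨![3 * q + 2, 3 * q + 2, 3 * q + 3, 3 * q + 2, 3 * q + 3, 3 * q + 3, 3 * q + 3], ?_, ?_⟩
    · simp [Fin.sum_univ_seven]; ring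
    · simp [poly]
      nlinarith [Nat.zero_le q, Nat.zero_le (q ^ 2), Nat.zero_le (q ^ 3)]

/-- For every `n ≥ 4` there is a 3-graph on `3n` vertices with exactly `n^3+1` edges in which
every 9 vertices span at most 27 edges. -/
theorem main (n : ℕ) (hn : 4 ≤ n) :
    ∃ E : Finset (Finset (Fin (3 * n))), (∀ e ∈ E, e.card = 3) ∧ E.card = n ^ 3 + 1 ∧
      ∀ S : Finset (Fin (3 * n)), S.card = 9 → (E.filter (fun e => e ⊆ S)).card ≤ 27 := by
  obtain ⟨s, hs, hp⟩ := sizes n hn
  obtain ⟨π, hπ⟩ := exists_part s hs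
  have hcard := blow_card_of_sizes π s hπ
  obtain ⟨E, hE, hEc⟩ := Finset.exists_subset_card_eq (s := blow π) (n := n ^ 3 + 1) (by
    rw [hcard]; exact hp)
  refine ⟨E, fun e he => blow_card_three π e (hE he), hEc, fun S hS => ?_⟩
  exact (Finset.card_le_card (Finset.filter_subset_filter _ hE)).trans (blow_le π S hS)

end Pool.Agent.Helper465Nine28
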